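import Mathlib
import Pool.Agent.H.MP_752b71_an.A

open Set Metric Real Filter Topology
open scoped InnerProductSpace

namespace Pool.Agent.H.MP_902c37_an

open Pool.Agent.H.MP_752b71_an

lemma iter {u : ℂ → ℝ} {z : ℂ} (hc : ContDiffAt ℝ 2 u z) (v : ℂ) :
    iteratedFDeriv ℝ 2 u z ![v, v] = fderiv ℝ (fun w => fderiv ℝ u w v) z v := by
  have hd : DifferentiableAt ℝ (fderiv ℝ u) z :=
    (hc.fderiv_right (m := 1) (by norm_num)).differentiableAt (by norm_num)
  rw [iteratedFDeriv_two_apply, fderiv_clm_apply hd (differentiableAt_const v)]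
  simp

variable {ι : Type} [Fintype ι]

lemma lapN {g : ι → ℂ → ℂ} {z : ℂ} (ha : ∀ m, AnalyticAt ℂ (g m) z) :
    Laplacian.laplacian (N g) z = 4 * ∑ m, ‖deriv (g m) z‖ ^ 2 := by
  have k : ∀ v, iteratedFDeriv ℝ 2 (N g) z ![v, v] =
      (∑ m, (2 * (deriv (g m) z * v).re ^ 2 + 2 * (deriv (g m) z * v).im ^ 2 +
        2 * (g m z).re * (deriv (deriv (g m)) z * v * v).re +
        2 * (g m z).im * (deriv (deriv (g m)) z * v * v).im)) := fun v => by
    have e1 : (fun w => fderiv ℝ (N g) w v) =ᶠ[𝓝 z] A g v := by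
      filter_upwards [eventually_all.2 fun m => (ha m).eventually_analyticAt] with w h1
      exact dir ((cN h1).differentiableAt (by norm_num)) (dN h1 v)
    rw [iter (cN ha), e1.fderiv_eq]
    exact dir ((cA ha v).differentiableAt (by norm_num)) (dA ha v)
  rw [InnerProductSpace.laplacian_eq_iteratedFDeriv_complexPlane]
  simp only [k]
  rw [← Finset.sum_add_distrib, Finset.mul_sum]
  refine Finset.sum_congr rfl fun m _ => ?_
  have : ∀ w : ℂ, w * Complex.I * Complex.I = -w := fun w => by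
    rw [mul_assoc, Complex.I_mul_I]; ring
  simp only [this, Complex.sq_norm, Complex.normSq_apply]
  simp
  ring

lemma locmax {u : ℂ → ℝ} {z : ℂ} (hc : ContDiffAt ℝ 2 u z) (hm : IsLocalMax u z) :
    Laplacian.laplacian u z ≤ 0 := by
  have k : ∀ v, iteratedFDeriv ℝ 2 u z ![v, v] ≤ 0 := fun v => by
    rw [iter hc]
    by_contra h
    push Not at h
    have l0 : HasDerivAt (fun τ : ℝ => z + τ * v) v 0 := by simpa using line (hasDerivAt_id z) v
    have lc : Continuous fun τ : ℝ => z + τ * v := by fun_prop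
    have lt : Tendsto (fun τ : ℝ => z + τ * v) (𝓝 0) (𝓝 z) := by simpa using lc.tendsto 0
    have e1 : deriv (fun τ : ℝ => u (z + τ * v)) =ᶠ[𝓝 0] fun τ => fderiv ℝ u (z + τ * v) v := by
      filter_upwards [lt.eventually (hc.eventually (by simp))] with τ hτ
      have l1 : HasDerivAt (fun τ : ℝ => z + τ * v) v τ := by
        simpa using ((Complex.ofRealCLM.hasDerivAt (x := τ)).mul_const v).const_add z
      exact ((hτ.differentiableAt (by norm_num)).hasFDerivAt.comp_hasDerivAt τ l1).deriv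
    have hd : DifferentiableAt ℝ (fun w => fderiv ℝ u w v) (z + ((0:ℝ):ℂ) * v) := by
      simpa using ((hc.fderiv_right (m := 1) (by norm_num)).differentiableAt
        (by norm_num)).clm_apply (differentiableAt_const v)
    have e2 : deriv (deriv fun τ : ℝ => u (z + τ * v)) 0 =
        fderiv ℝ (fun w => fderiv ℝ u w v) z v := by
      rw [e1.deriv_eq]
      simpa [Function.comp_def] using (hd.hasFDerivAt.comp_hasDerivAt 0 l0).deriv
    have m1 : IsLocalMax (fun τ : ℝ => u (z + τ * v)) 0 := by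
      have := lt.eventually hm
      simpa [IsLocalMax, IsMaxFilter] using this
    have c1 : ContinuousAt (fun τ : ℝ => u (z + τ * v)) 0 :=
      ContinuousAt.comp (f := fun τ : ℝ => z + τ * v) (by simpa using hc.continuousAt)
        lc.continuousAt
    have m2 := isLocalMin_of_deriv_deriv_pos (e2 ▸ h) m1.deriv_eq_zero c1
    have e3 : (fun τ : ℝ => u (z + τ * v)) =ᶠ[𝓝 0] fun _ => u (z + ((0:ℝ):ℂ) * v) := by
      filter_upwards [m1, m2] with τ h1 h2 using le_antisymm h1 h2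
    rw [e3.deriv.deriv_eq] at e2
    simp at e2
    linarith
  rw [InnerProductSpace.laplacian_eq_iteratedFDeriv_complexPlane]
  exact add_nonpos (k _) (k _)

lemma maxp {u : ℂ → ℝ} {K : Set ℂ} (hK : IsCompact K) (hc : ∀ z ∈ K, ContDiffAt ℝ 2 u z)
    (hs : ∀ z ∈ K, 0 ≤ Laplacian.laplacian u z) {B : ℝ}
    (hb : ∀ z ∈ K, z ∉ interior K → u z ≤ B) {z : ℂ} (hz : z ∈ K) : u z ≤ B := by
  obtain ⟨R, hR⟩ := hK.isBounded.exists_norm_le
  refine le_of_forall_pos_le_add fun ε hε => ?_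
  set g : Unit → ℂ → ℂ := fun _ w => w
  have ga : ∀ w m, AnalyticAt ℂ (g m) w := fun w m => analyticAt_id
  have gN : ∀ w, N g w = ‖w‖ ^ 2 := fun w => by
    simp [N, g, Complex.sq_norm, Complex.normSq_apply]; ring
  set δ := ε / (R ^ 2 + 1) with hδ
  have d0 : 0 < δ := by positivity
  have c2 : ∀ w ∈ K, ContDiffAt ℝ 2 (u + δ • N g) w := fun w hw =>
    (hc w hw).add ((cN (ga w)).const_smul δ)
  obtain ⟨w, hw, hm⟩ := hK.exists_isMaxOn ⟨z, hz⟩
    (fun w hw => (c2 w hw).continuousAt.continuousWithinAt)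
  have h1 : w ∉ interior K := fun h => by
    have := locmax (c2 w hw) (hm.isLocalMax (mem_interior_iff_mem_nhds.1 h))
    rw [(hc w hw).laplacian_add (f₂ := δ • N g) ((cN (ga w)).const_smul δ),
      InnerProductSpace.laplacian_smul _ (cN (ga w)), lapN (ga w)] at this
    have := hs w hw
    simp [g] at *
    linarith
  have h2 : u z + δ * N g z ≤ u w + δ * N g w := hm hz
  have h3 := hb w hw h1
  rw [gN, gN] at h2
  have h4 : ‖w‖ ^ 2 ≤ R ^ 2 + 1 := by nlinarith [hR w hw, norm_nonneg w]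
  have h5 : δ * (R ^ 2 + 1) = ε := by rw [hδ]; field_simp
  nlinarith [sq_nonneg ‖z‖]

lemma three {u : ℂ → ℝ} {ρ R A M : ℝ} (h0 : 0 < ρ) (h1 : ρ < R) (hA : A ≤ M)
    (hc : ∀ z : ℂ, ‖z‖ ≤ R → ContDiffAt ℝ 2 u z ∧ 0 ≤ Laplacian.laplacian u z ∧ u z ≤ M)
    (ha : ∀ z : ℂ, ‖z‖ = ρ → u z ≤ A) {z : ℂ} (hz : ρ ≤ ‖z‖) (hz' : ‖z‖ ≤ R) :
    u z ≤ A + (M - A) / Real.log (R / ρ) * Real.log (‖z‖ / ρ) := by
  set κ := (M - A) / Real.log (R / ρ) with hκ
  have l0 : 0 < Real.log (R / ρ) := Real.log_pos ((one_lt_div h0).2 h1)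
  have k0 : 0 ≤ κ := div_nonneg (sub_nonneg.2 hA) l0.le
  have hH : ∀ w : ℂ, ρ ≤ ‖w‖ → InnerProductSpace.HarmonicAt (fun w : ℂ => Real.log ‖w / ρ‖) w :=
    fun w hw => AnalyticAt.harmonicAt_log_norm (f := fun w => w / ρ) (by fun_prop)
      (div_ne_zero (norm_pos_iff.1 (h0.trans_le hw)) (by exact_mod_cast h0.ne'))
  have nr : ∀ w : ℂ, ‖w / ρ‖ = ‖w‖ / ρ := fun w => by simp [abs_of_pos h0]
  have := maxp (u := u + (-κ) • fun w : ℂ => Real.log ‖w / ρ‖) (K := closedBall 0 R \ ball 0 ρ)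
    ((isCompact_closedBall _ _).diff isOpen_ball) (B := A)
    (fun w hw => (hc w (by simpa using hw.1)).1.add ((hH w (by simpa using hw.2)).1.const_smul (-κ)))
    (fun w hw => by
      have a := hc w (by simpa using hw.1)
      have b := hH w (by simpa using hw.2)
      rw [a.1.laplacian_add (f₂ := (-κ) • fun w : ℂ => Real.log ‖w / ρ‖) (b.1.const_smul (-κ)), InnerProductSpace.laplacian_smul _ b.1,
        b.2.eq_of_nhds]
      simpa using a.2.1)
    (fun w hw hi => by
      have a1 : ‖w‖ ≤ R := by simpa using hw.1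
      have a2 : ρ ≤ ‖w‖ := by simpa using hw.2
      simp only [Pi.add_apply, Pi.smul_apply, smul_eq_mul, nr]
      rcases a2.eq_or_lt with e | e
      · rw [← e, div_self h0.ne']; simpa using ha w e.symm
      rcases a1.eq_or_lt with e' | e'
      · rw [e', hκ, neg_mul, div_mul_cancel₀ _ l0.ne']; linarith [(hc w a1).2.2]
      exact absurd (mem_interior.2 ⟨ball 0 R \ closedBall 0 ρ,
        sdiff_subset_sdiff ball_subset_closedBall ball_subset_closedBall,
        isOpen_ball.sdiff isClosed_closedBall, by simpa using e', by simpa using e⟩) hi)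
    (z := z) ⟨by simpa using hz', by simpa using hz⟩
  simp only [Pi.add_apply, Pi.smul_apply, smul_eq_mul, nr] at this
  linarith

end Pool.Agent.H.MP_902c37_an
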